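import Pool.Agent.Lib.MP_4856b2_nt.PartC

/-!
The first question: every A-sequence has reciprocal sum at most the reciprocal sum of `χ`.
-/

namespace Pool.Agent.Results.MP_4856b2_nt.ASequences

open Pool.Agent.Lib.MP_4856b2_nt

theorem result :
    (∃ χ : ℕ → ℤ, χ 1 = 1 ∧ ∀ i : ℕ, 1 < i →
      IsGreatest {m : ℤ | ∃ j : ℕ, 1 ≤ j ∧ j ≤ i - 1 ∧ m = ((j : ℤ) + 1) * ((i : ℤ) - χ j)} (χ i)) ∧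
    ∀ χ : ℕ → ℤ, χ 1 = 1 →
      (∀ i : ℕ, 1 < i →
        IsGreatest {m : ℤ | ∃ j : ℕ, 1 ≤ j ∧ j ≤ i - 1 ∧ m = ((j : ℤ) + 1) * ((i : ℤ) - χ j)} (χ i)) →
      Summable (fun k : ℕ => 1 / (χ (k + 1) : ℝ)) ∧
      (∀ a : ℕ → ℤ, 1 ≤ a 1 → (∀ k : ℕ, 1 ≤ k → a k < a (k + 1)) →
        (∀ k : ℕ, 1 ≤ k → ∀ s : Finset ℕ, 2 ≤ s.card → (∀ j ∈ s, 1 ≤ j ∧ j < k) →
          ∑ j ∈ s, a j ≠ a k) →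
        Summable (fun k : ℕ => 1 / (a (k + 1) : ℝ)) ∧
        ∑' k : ℕ, 1 / (a (k + 1) : ℝ) ≤ ∑' k : ℕ, 1 / (χ (k + 1) : ℝ)) ∧
      sSup {S : ℝ | ∃ a : ℕ → ℤ, 1 ≤ a 1 ∧ (∀ k : ℕ, 1 ≤ k → a k < a (k + 1)) ∧
        (∀ k : ℕ, 1 ≤ k → ∀ s : Finset ℕ, 2 ≤ s.card → (∀ j ∈ s, 1 ≤ j ∧ j < k) →
          ∑ j ∈ s, a j ≠ a k) ∧
        S = ∑' k : ℕ, 1 / (a (k + 1) : ℝ)} ≤ ∑' k : ℕ, 1 / (χ (k + 1) : ℝ) := by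
  refine ⟨⟨fun i => (chiN i : ℤ), Rec_chiN.1, Rec_chiN.2⟩, ?_⟩
  intro χ hχ1 hχ
  have hR : Rec χ := ⟨hχ1, hχ⟩
  have key : ∀ a : ℕ → ℤ, 1 ≤ a 1 → (∀ k : ℕ, 1 ≤ k → a k < a (k + 1)) →
        (∀ k : ℕ, 1 ≤ k → ∀ s : Finset ℕ, 2 ≤ s.card → (∀ j ∈ s, 1 ≤ j ∧ j < k) →
          ∑ j ∈ s, a j ≠ a k) →
        Summable (fun k : ℕ => 1 / (a (k + 1) : ℝ)) ∧
        ∑' k : ℕ, 1 / (a (k + 1) : ℝ) ≤ ∑' k : ℕ, 1 / (χ (k + 1) : ℝ) := by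
    intro a h1 h2 h3
    exact (Q2_int hR h1 h2 (isA_nat h1 h2 h3).chi_ineq).2
  refine ⟨summable_int hR, key, ?_⟩
  apply Real.sSup_le
  · rintro S ⟨a, h1, h2, h3, rfl⟩
    exact (key a h1 h2 h3).2
  · apply tsum_nonneg
    intro k
    have := hR.le_self (i := k + 1) (by omega)
    have h2 : (0 : ℤ) ≤ χ (k + 1) := le_trans (by positivity) this
    have h3 : (0 : ℝ) ≤ χ (k + 1) := by exact_mod_cast h2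
    positivity

end Pool.Agent.Results.MP_4856b2_nt.ASequences
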