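import Pool.Agent.Lib.MP_4856b2_nt.PartC

/-!
The second question: among the sequences satisfying the chi inequality, the sequence `χ`
maximises every partial sum of reciprocals, hence also the full reciprocal sum.
-/

namespace Pool.Agent.Results.MP_4856b2_nt.ChiInequality

open Pool.Agent.Lib.MP_4856b2_nt

theorem result :
    (∃ χ : ℕ → ℤ, χ 1 = 1 ∧ ∀ i : ℕ, 1 < i →
      IsGreatest {m : ℤ | ∃ j : ℕ, 1 ≤ j ∧ j ≤ i - 1 ∧ m = ((j : ℤ) + 1) * ((i : ℤ) - χ j)} (χ i)) ∧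
    ∀ χ : ℕ → ℤ, χ 1 = 1 →
      (∀ i : ℕ, 1 < i →
        IsGreatest {m : ℤ | ∃ j : ℕ, 1 ≤ j ∧ j ≤ i - 1 ∧ m = ((j : ℤ) + 1) * ((i : ℤ) - χ j)} (χ i)) →
      Summable (fun k : ℕ => 1 / (χ (k + 1) : ℝ)) ∧
      ∀ a : ℕ → ℤ, 1 ≤ a 1 → (∀ k : ℕ, 1 ≤ k → a k < a (k + 1)) →
        (∀ i j : ℕ, 1 ≤ i → 1 ≤ j → ((j : ℤ) + 1) * (i : ℤ) ≤ ((j : ℤ) + 1) * a j + a i) →
        (∀ n : ℕ, ∑ k ∈ Finset.range n, 1 / (a (k + 1) : ℝ)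
          ≤ ∑ k ∈ Finset.range n, 1 / (χ (k + 1) : ℝ)) ∧
        Summable (fun k : ℕ => 1 / (a (k + 1) : ℝ)) ∧
        ∑' k : ℕ, 1 / (a (k + 1) : ℝ) ≤ ∑' k : ℕ, 1 / (χ (k + 1) : ℝ) := by
  refine ⟨⟨fun i => (chiN i : ℤ), Rec_chiN.1, Rec_chiN.2⟩, ?_⟩
  intro χ hχ1 hχ
  have hR : Rec χ := ⟨hχ1, hχ⟩
  refine ⟨summable_int hR, ?_⟩
  intro a h1 h2 h3
  exact Q2_int hR h1 h2 (chi_ineq_nat h1 h2 h3)

end Pool.Agent.Results.MP_4856b2_nt.ChiInequality
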